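import Pool.Agent.N783.PQ.Loc

/-!
# PQ/HSP (helper878): forms with a Lagrangian are standard
-/

set_option autoImplicit false

open Matrix Module

namespace Pool.Agent.N878.PQ

section

variable {F : Type} [Field F] {m : ℕ}

lemma gram_apply {ι κ : Type} (G : Matrix (Fin m) (Fin m) F) (A : Matrix (Fin m) ι F)
    (D : Matrix (Fin m) κ F) (i : ι) (j : κ) :
    (Aᵀ * G * D) i j = (fun a => A a i) ⬝ᵥ (G *ᵥ fun a => D a j) := by
  rw [Matrix.mul_assoc]
  rfl

lemma symm_dot {G : Matrix (Fin m) (Fin m) F} (hG : G.IsSymm) (x y : Fin m → F) :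
    x ⬝ᵥ (G *ᵥ y) = y ⬝ᵥ (G *ᵥ x) := by
  rw [Matrix.dotProduct_mulVec, ← Matrix.mulVec_transpose, hG.eq, dotProduct_comm]

/-- hyperbolic planes -/
lemma exists_dual [CharZero F] {g : ℕ} {G : Matrix (Fin m) (Fin m) F} (hG : G.IsSymm)
    (hdet : G.det ≠ 0) (z : Fin g → Fin m → F) (hz : LinearIndependent F z)
    (hzz : ∀ i j, z i ⬝ᵥ (G *ᵥ z j) = 0) :
    ∃ y : Fin g → Fin m → F, (∀ i j, z i ⬝ᵥ (G *ᵥ y j) = if i = j then 1 else 0) ∧
      ∀ i j, y i ⬝ᵥ (G *ᵥ y j) = 0 := by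
  obtain ⟨Z, hZ⟩ : ∃ Z : Matrix (Fin m) (Fin g) F, Z = Matrix.of fun a i => z i a := ⟨_, rfl⟩
  have hcolZ : ∀ i, (fun a => Z a i) = z i := fun i => by rw [hZ]; rfl
  have hinj : LinearMap.ker (Matrix.toLin' Z) = ⊥ := by
    rw [LinearMap.ker_eq_bot']
    intro c hc
    rw [Matrix.toLin'_apply] at hc
    have h1 : ∑ i, c i • z i = 0 := by
      rw [← hc]
      ext a
      rw [Finset.sum_apply, Matrix.mulVec, dotProduct]
      refine Finset.sum_congr rfl fun i _ => ?_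
      rw [Pi.smul_apply, smul_eq_mul, hZ, Matrix.of_apply, mul_comm]
    exact funext (Fintype.linearIndependent_iff.1 hz c h1)
  obtain ⟨U', hU'⟩ := (Matrix.toLin' Z).exists_leftInverse_of_injective hinj
  obtain ⟨U, hU⟩ : ∃ U : Matrix (Fin g) (Fin m) F, U * Z = 1 := by
    refine ⟨LinearMap.toMatrix' U', ?_⟩
    have h1 := congrArg LinearMap.toMatrix' hU'
    rw [LinearMap.toMatrix'_comp, LinearMap.toMatrix'_toLin', LinearMap.toMatrix'_id] at h1
    exact h1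
  have hGu : IsUnit G.det := isUnit_iff_ne_zero.2 hdet
  have hZZ : Zᵀ * G * Z = 0 := by
    ext i j
    rw [gram_apply, hcolZ, hcolZ, hzz, Matrix.zero_apply]
  have hZY : Zᵀ * G * (G⁻¹ * Uᵀ) = 1 := by
    rw [Matrix.mul_assoc, Matrix.mul_nonsing_inv_cancel_left _ _ hGu, ← Matrix.transpose_mul, hU,
      Matrix.transpose_one]
  obtain ⟨Y, hY⟩ : ∃ Y : Matrix (Fin m) (Fin g) F, Y = G⁻¹ * Uᵀ := ⟨_, rfl⟩
  rw [← hY] at hZY
  have hYZ : Yᵀ * G * Z = 1 := by
    have h1 := congrArg Matrix.transpose hZY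
    rw [Matrix.transpose_mul, Matrix.transpose_mul, Matrix.transpose_transpose, hG.eq,
      Matrix.transpose_one, ← Matrix.mul_assoc] at h1
    exact h1
  obtain ⟨S, hS⟩ : ∃ S, S = Yᵀ * G * Y := ⟨_, rfl⟩
  have hSt : Sᵀ = S := by
    rw [hS, Matrix.transpose_mul, Matrix.transpose_mul, Matrix.transpose_transpose, hG.eq,
      ← Matrix.mul_assoc]
  obtain ⟨Y', hY'⟩ : ∃ Y', Y' = Y - (2⁻¹ : F) • (Z * S) := ⟨_, rfl⟩
  have h1 : Zᵀ * G * Y' = 1 := by
    rw [hY', Matrix.mul_sub, hZY, Matrix.mul_smul, ← Matrix.mul_assoc, hZZ, Matrix.zero_mul,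
      smul_zero, sub_zero]
  have h2 : Y'ᵀ * G * Y' = 0 := by
    have h3 : Yᵀ * G * Y' = (2⁻¹ : F) • S := by
      rw [hY', Matrix.mul_sub, ← hS, Matrix.mul_smul, ← Matrix.mul_assoc, hYZ, Matrix.one_mul]
      rw [sub_eq_iff_eq_add, ← add_smul]
      norm_num
    have h4 : Y'ᵀ = Yᵀ - (2⁻¹ : F) • (S * Zᵀ) := by
      rw [hY', Matrix.transpose_sub, Matrix.transpose_smul, Matrix.transpose_mul, hSt]
    rw [h4, Matrix.sub_mul, Matrix.sub_mul, h3, Matrix.smul_mul, Matrix.smul_mul, Matrix.mul_assoc,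
      Matrix.mul_assoc, ← Matrix.mul_assoc Zᵀ, h1, Matrix.mul_one, sub_self]
  refine ⟨fun i a => Y' a i, fun i j => ?_, fun i j => ?_⟩
  · have h3 := congrFun (congrFun h1 i) j
    rw [gram_apply, hcolZ, Matrix.one_apply] at h3
    exact h3
  · have h3 := congrFun (congrFun h2 i) j
    rw [gram_apply, Matrix.zero_apply] at h3
    exact h3

/-- the vectors of the diagonal basis -/
def ww {g : ℕ} (z y : Fin g → Fin (2 * g + 1) → F) (e : Fin (2 * g + 1) → F)
    (j : Fin (2 * g + 1)) : Fin (2 * g + 1) → F :=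
  if h : (j : ℕ) < 2 * g then
    z ⟨(j : ℕ) / 2, by omega⟩ + ((-1) ^ (j : ℕ) / 2 : F) • y ⟨(j : ℕ) / 2, by omega⟩
  else e

/-- the diagonal entries -/
def dg (g : ℕ) (c : F) (j : Fin (2 * g + 1)) : F := if (j : ℕ) < 2 * g then (-1) ^ (j : ℕ) else c

lemma dg_prod (g : ℕ) (c : F) : ∏ j, dg g c j = (-1) ^ g * c := by
  rw [Fin.prod_univ_castSucc]
  have h1 : dg g c (Fin.last (2 * g)) = c := by
    unfold dg
    rw [Fin.val_last, if_neg (lt_irrefl _)]
  have h2 : ∏ i : Fin (2 * g), dg g c i.castSucc = ∏ i : Fin (2 * g), (-1 : F) ^ (i : ℕ) := by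
    refine Finset.prod_congr rfl fun i _ => ?_
    unfold dg
    rw [Fin.val_castSucc, if_pos i.2]
  have h3 : ∀ k : ℕ, ∏ i ∈ Finset.range (2 * k), (-1 : F) ^ i = (-1) ^ k := by
    intro k
    induction k with
    | zero => simp
    | succ k ih =>
      rw [show 2 * (k + 1) = 2 * k + 1 + 1 by ring, Finset.prod_range_succ,
        Finset.prod_range_succ, ih, pow_succ (-1 : F) (2 * k), pow_mul, neg_one_sq, one_pow,
        pow_succ]
      ring
  rw [h1, h2, Fin.prod_univ_eq_prod_range (fun i => (-1 : F) ^ i) (2 * g), h3]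

lemma ww_gram [CharZero F] {g : ℕ} {G : Matrix (Fin (2 * g + 1)) (Fin (2 * g + 1)) F}
    (hG : G.IsSymm) {z y : Fin g → Fin (2 * g + 1) → F}
    (hzz : ∀ i j, z i ⬝ᵥ (G *ᵥ z j) = 0)
    (hzy : ∀ i j, z i ⬝ᵥ (G *ᵥ y j) = if i = j then 1 else 0)
    (hyy : ∀ i j, y i ⬝ᵥ (G *ᵥ y j) = 0) {e : Fin (2 * g + 1) → F}
    (hze : ∀ i, z i ⬝ᵥ (G *ᵥ e) = 0) (hye : ∀ i, y i ⬝ᵥ (G *ᵥ e) = 0)
    (j k : Fin (2 * g + 1)) :
    ww z y e j ⬝ᵥ (G *ᵥ ww z y e k) = if j = k then dg g (e ⬝ᵥ (G *ᵥ e)) j else 0 := by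
  have hyz : ∀ i j, y i ⬝ᵥ (G *ᵥ z j) = if i = j then 1 else 0 := by
    intro i j
    rw [symm_dot hG, hzy]
    simp only [eq_comm]
  have hez : ∀ i, e ⬝ᵥ (G *ᵥ z i) = 0 := fun i => by rw [symm_dot hG, hze]
  have hey : ∀ i, e ⬝ᵥ (G *ᵥ y i) = 0 := fun i => by rw [symm_dot hG, hye]
  unfold ww dg
  by_cases hj : (j : ℕ) < 2 * g <;> by_cases hk : (k : ℕ) < 2 * g
  · rw [dif_pos hj, dif_pos hk, if_pos hj]
    simp only [Matrix.mulVec_add, Matrix.mulVec_smul, dotProduct_add, add_dotProduct,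
      smul_dotProduct, dotProduct_smul, hzz, hzy, hyy, hyz, smul_eq_mul, mul_zero, add_zero,
      zero_add, Fin.mk.injEq]
    by_cases hjk : j = k
    · subst hjk
      simp only [if_true]
      ring
    · rw [if_neg hjk]
      have hjk' : (j : ℕ) ≠ k := fun h => hjk (Fin.ext h)
      by_cases h2 : (j : ℕ) / 2 = (k : ℕ) / 2
      · rw [if_pos h2, mul_one, mul_one]
        rcases Nat.even_or_odd (j : ℕ) with h3 | h3
        · have h4 : Odd (k : ℕ) := by
            rw [Nat.even_iff] at h3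
            rw [Nat.odd_iff]
            omega
          rw [h3.neg_one_pow, h4.neg_one_pow]
          ring
        · have h4 : Even (k : ℕ) := by
            rw [Nat.odd_iff] at h3
            rw [Nat.even_iff]
            omega
          rw [h3.neg_one_pow, h4.neg_one_pow]
          ring
      · rw [if_neg h2]
        ring
  · have hjk : j ≠ k := fun h => hk (h ▸ hj)
    rw [dif_pos hj, dif_neg hk, if_neg hjk]
    simp only [add_dotProduct, smul_dotProduct, hze, hye, smul_zero, add_zero]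
  · have hjk : j ≠ k := fun h => hj (h ▸ hk)
    rw [dif_neg hj, dif_pos hk, if_neg hjk]
    simp only [Matrix.mulVec_add, Matrix.mulVec_smul, dotProduct_add, dotProduct_smul, hez, hey,
      smul_zero, add_zero]
  · have hjk : j = k := by
      apply Fin.ext
      have := j.2
      have := k.2
      omega
    rw [dif_neg hj, dif_neg hk, if_pos hjk, if_neg hj]

lemma exists_ker {g : ℕ} (G : Matrix (Fin (2 * g + 1)) (Fin (2 * g + 1)) F)
    (z y : Fin g → Fin (2 * g + 1) → F) :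
    ∃ e : Fin (2 * g + 1) → F, e ≠ 0 ∧ (∀ i, z i ⬝ᵥ (G *ᵥ e) = 0) ∧
      ∀ i, y i ⬝ᵥ (G *ᵥ e) = 0 := by
  obtain ⟨A, hA⟩ : ∃ A : Matrix (Fin g ⊕ Fin g) (Fin (2 * g + 1)) F,
      A = Matrix.of (Sum.elim z y) * G := ⟨_, rfl⟩
  have h1 : LinearMap.ker (Matrix.toLin' A) ≠ ⊥ := by
    apply LinearMap.ker_ne_bot_of_finrank_lt
    rw [Module.finrank_fintype_fun_eq_card, Module.finrank_fintype_fun_eq_card, Fintype.card_sum,
      Fintype.card_fin, Fintype.card_fin]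
    omega
  obtain ⟨e, he, he0⟩ := (Submodule.ne_bot_iff _).1 h1
  rw [LinearMap.mem_ker, Matrix.toLin'_apply, hA, ← Matrix.mulVec_mulVec] at he
  refine ⟨e, he0, fun i => congrFun he (Sum.inl i), fun i => congrFun he (Sum.inr i)⟩

theorem hsp_core [CharZero F] (g : ℕ) (G : Matrix (Fin (2 * g + 1)) (Fin (2 * g + 1)) F)
    (hG : G.IsSymm) (hsq : IsSquare ((-1) ^ g * G.det)) (hdet : G.det ≠ 0)
    (z : Fin g → Fin (2 * g + 1) → F) (hz : LinearIndependent F z)
    (hzz : ∀ i j, z i ⬝ᵥ (G *ᵥ z j) = 0) :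
    ∃ T : Matrix (Fin (2 * g + 1)) (Fin (2 * g + 1)) F,
      T * Matrix.diagonal (dg g (1 : F)) * Tᵀ = G := by
  obtain ⟨y, hzy, hyy⟩ := exists_dual hG hdet z hz hzz
  obtain ⟨e, he, hze, hye⟩ := exists_ker G z y
  obtain ⟨P, hP⟩ : ∃ P : Matrix (Fin (2 * g + 1)) (Fin (2 * g + 1)) F,
      P = Matrix.of fun a j => ww z y e j a := ⟨_, rfl⟩
  have hcol : ∀ j, (fun a => P a j) = ww z y e j := fun j => by rw [hP]; rfl
  obtain ⟨c, hc⟩ : ∃ c, c = e ⬝ᵥ (G *ᵥ e) := ⟨_, rfl⟩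
  have hPG : Pᵀ * G * P = Matrix.diagonal (dg g c) := by
    ext j k
    rw [gram_apply, hcol, hcol, ww_gram hG hzz hzy hyy hze hye, Matrix.diagonal_apply, hc]
  have hdetP : P.det ≠ 0 := by
    intro h0
    obtain ⟨v, hv0, hv⟩ := Matrix.exists_mulVec_eq_zero_iff.2 h0
    have h1 : Matrix.diagonal (dg g c) *ᵥ v = 0 := by
      rw [← hPG, ← Matrix.mulVec_mulVec, hv, Matrix.mulVec_zero]
    have h2 : ∀ j : Fin (2 * g + 1), (j : ℕ) < 2 * g → v j = 0 := by
      intro j hj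
      have h3 := congrFun h1 j
      rw [Matrix.mulVec_diagonal, Pi.zero_apply] at h3
      rcases mul_eq_zero.1 h3 with h4 | h4
      · exfalso
        unfold dg at h4
        rw [if_pos hj] at h4
        exact pow_ne_zero _ (by norm_num) h4
      · exact h4
    have h3 : v (Fin.last (2 * g)) • e = 0 := by
      rw [← hv]
      ext a
      rw [Matrix.mulVec, dotProduct, Fin.sum_univ_castSucc]
      have h4 : ∑ i : Fin (2 * g), P a i.castSucc * v i.castSucc = 0 := by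
        refine Finset.sum_eq_zero fun i _ => ?_
        rw [h2 i.castSucc (by rw [Fin.val_castSucc]; exact i.2), mul_zero]
      have h5 : P a (Fin.last (2 * g)) = e a := by
        rw [hP, Matrix.of_apply, ww, dif_neg (by rw [Fin.val_last]; exact lt_irrefl _)]
      rw [h4, zero_add, h5, Pi.smul_apply, smul_eq_mul, mul_comm]
    have h4 : v (Fin.last (2 * g)) = 0 := (smul_eq_zero.1 h3).resolve_right he
    apply hv0
    ext j
    by_cases hj : (j : ℕ) < 2 * g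
    · exact h2 j hj
    · have : j = Fin.last (2 * g) := by
        apply Fin.ext
        rw [Fin.val_last]
        have := j.2
        omega
      rw [this, h4, Pi.zero_apply]
  obtain ⟨r, hr⟩ := hsq
  have hcs : c = (r * P.det) * (r * P.det) := by
    have h1 := congrArg Matrix.det hPG
    rw [Matrix.det_mul, Matrix.det_mul, Matrix.det_transpose, Matrix.det_diagonal, dg_prod] at h1
    have h2 : ((-1 : F) ^ g) * (-1) ^ g = 1 := by
      rw [← mul_pow]
      norm_num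
    calc c = ((-1 : F) ^ g * (-1) ^ g) * c := by rw [h2, one_mul]
      _ = (-1) ^ g * ((-1) ^ g * c) := by ring
      _ = (-1) ^ g * (P.det * G.det * P.det) := by rw [h1]
      _ = ((-1) ^ g * G.det) * (P.det * P.det) := by ring
      _ = _ := by rw [hr]; ring
  have hs0 : r * P.det ≠ 0 := by
    refine mul_ne_zero ?_ hdetP
    rintro rfl
    rw [mul_zero] at hr
    rcases mul_eq_zero.1 hr with h | h
    · exact pow_ne_zero _ (by norm_num) h
    · exact hdet h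
  obtain ⟨s, hs⟩ : ∃ s, s = r * P.det := ⟨_, rfl⟩
  rw [← hs] at hcs hs0
  obtain ⟨e', he'⟩ : ∃ e', e' = s⁻¹ • e := ⟨_, rfl⟩
  have hze' : ∀ i, z i ⬝ᵥ (G *ᵥ e') = 0 := fun i => by
    rw [he', Matrix.mulVec_smul, dotProduct_smul, hze, smul_zero]
  have hye' : ∀ i, y i ⬝ᵥ (G *ᵥ e') = 0 := fun i => by
    rw [he', Matrix.mulVec_smul, dotProduct_smul, hye, smul_zero]
  have hee' : e' ⬝ᵥ (G *ᵥ e') = 1 := by
    rw [he', Matrix.mulVec_smul, dotProduct_smul, smul_dotProduct, ← hc, hcs, smul_eq_mul,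
      smul_eq_mul]
    field_simp
  obtain ⟨Q, hQ⟩ : ∃ Q : Matrix (Fin (2 * g + 1)) (Fin (2 * g + 1)) F,
      Q = Matrix.of fun a j => ww z y e' j a := ⟨_, rfl⟩
  have hcolQ : ∀ j, (fun a => Q a j) = ww z y e' j := fun j => by rw [hQ]; rfl
  have hQG : Qᵀ * G * Q = Matrix.diagonal (dg g 1) := by
    ext j k
    rw [gram_apply, hcolQ, hcolQ, ww_gram hG hzz hzy hyy hze' hye', Matrix.diagonal_apply, hee']
  have hQdet : IsUnit Q.det := by
    rw [isUnit_iff_ne_zero]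
    intro h0
    have h1 := congrArg Matrix.det hQG
    rw [Matrix.det_mul, h0, mul_zero, Matrix.det_diagonal, dg_prod, mul_one] at h1
    exact pow_ne_zero _ (by norm_num) h1.symm
  refine ⟨(Q⁻¹)ᵀ, ?_⟩
  rw [← hQG, Matrix.transpose_transpose, ← Matrix.mul_assoc, ← Matrix.mul_assoc,
    ← Matrix.transpose_mul, Matrix.mul_nonsing_inv _ hQdet, Matrix.transpose_one, Matrix.one_mul,
    Matrix.mul_assoc, Matrix.mul_nonsing_inv _ hQdet, Matrix.mul_one]

end

open Pool.Agent.N783.PQ in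
/-- HSP. -/
theorem hsp : Pool.Agent.N783.PQ.S_HSP := by
  intro F _ _ g G hG hsq hdet ⟨z, hz, hzz⟩
  obtain ⟨T, hT⟩ := hsp_core g G hG hsq hdet z hz hzz
  exact ⟨T, hT⟩

end Pool.Agent.N878.PQ
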